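import Pool.Agent.U587.PW.Two

/-!
# Frequencies of the Thue-Morse symbols along `[a P(n)]` and `[a n^θ]`

Let `d ≥ 1`, let `S` be a countable set of real polynomials of degrees in `[1, d]` with positive leading coefficient (for
example all the integer ones) and `Θ` a countable set of exponents in `(0, d]`. There is ONE set `D` of real numbers, of
Hausdorff dimension at most `1 - 1 / (2^(4 d + 6) d) < 1`, such that for ALL `a > 0` outside of `D` both symbols have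
frequency `1 / 2` in the sequences `t([a P(n)])` and `t([a n^θ])`, for all `P` in `S` and all `θ` in `Θ`.

Proof. Both symbols have frequency `1 / 2` in the Thue-Morse sequence itself, and the sampling theorem `seq_rng` for
bounded sequences applies to the indicator functions of the two symbols.
-/

set_option autoImplicit false

namespace Pool.Agent.Results.MP_b6022c_nt.ExceptionalMultiples

open Filter Topology MeasureTheory

/-- the Thue-Morse sequence: the sum of the binary digits mod 2 -/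
def t (n : ℕ) : ℕ := (Nat.digits 2 n).sum % 2

/-- both symbols have frequency `1 / 2` in the sequence `u 1, u 2, ...` -/
def Balanced (u : ℕ → ℕ) : Prop :=
  ∀ i < 2, Tendsto (fun N : ℕ => (((Finset.Icc 1 N).filter fun n => u n = i).card : ℝ) / (N : ℝ)) atTop (𝓝 (1 / 2))

lemma t_even (m : ℕ) : t (2 * m) = (Nat.digits 2 m).sum % 2 := by
  unfold t
  rcases Nat.eq_zero_or_pos m with h | h
  · rw [h]
  · rw [Nat.digits_def' (by norm_num) (by omega : 0 < 2 * m)]
    rw [Nat.mul_mod_right, Nat.mul_div_cancel_left m (by norm_num), List.sum_cons, zero_add]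

lemma t_odd (m : ℕ) : t (2 * m + 1) = ((Nat.digits 2 m).sum + 1) % 2 := by
  unfold t
  rw [Nat.digits_def' (by norm_num) (by omega : 0 < 2 * m + 1)]
  rw [show (2 * m + 1) % 2 = 1 by omega, show (2 * m + 1) / 2 = m by omega, List.sum_cons, Nat.add_comm]

/-- the indicator function of a symbol -/
noncomputable def ind (i : ℕ) (m : ℕ) : ℂ := if t m = i then 1 else 0

lemma ind_pair {i : ℕ} (hi : i < 2) (m : ℕ) : ind i (2 * m) + ind i (2 * m + 1) = 1 := by
  unfold ind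
  rw [t_even, t_odd]
  rcases Nat.mod_two_eq_zero_or_one (Nat.digits 2 m).sum with h | h
  · have h2 : ((Nat.digits 2 m).sum + 1) % 2 = 1 := by omega
    rw [h, h2]
    interval_cases i <;> simp
  · have h2 : ((Nat.digits 2 m).sum + 1) % 2 = 0 := by omega
    rw [h, h2]
    interval_cases i <;> simp

lemma sum_even {i : ℕ} (hi : i < 2) (M : ℕ) : ∑ m ∈ Finset.range (2 * M), ind i m = M := by
  induction M with
  | zero => simp
  | succ M ih =>
    rw [show 2 * (M + 1) = 2 * M + 1 + 1 by ring, Finset.sum_range_succ, Finset.sum_range_succ, ih, add_assoc,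
      ind_pair hi]
    push_cast
    ring

lemma norm_ind (i m : ℕ) : ‖ind i m‖ ≤ 1 := by
  unfold ind
  split_ifs <;> simp

lemma sum_err {i : ℕ} (hi : i < 2) (N : ℕ) : ‖∑ m ∈ Finset.range N, ind i m - (N : ℂ) / 2‖ ≤ 2 := by
  rcases Nat.even_or_odd' N with ⟨M, h | h⟩
  · rw [h, sum_even hi]
    push_cast
    rw [mul_div_cancel_left₀ _ (two_ne_zero), sub_self, norm_zero]
    norm_num
  · rw [h, Finset.sum_range_succ, sum_even hi]
    have e1 : (M : ℂ) + ind i (2 * M) - ((2 * M + 1 : ℕ) : ℂ) / 2 = ind i (2 * M) - 1 / 2 := by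
      push_cast
      ring
    rw [e1]
    have h2 := norm_sub_le (ind i (2 * M)) (1 / 2)
    have h3 := norm_ind i (2 * M)
    have h4 : ‖(1 / 2 : ℂ)‖ = 1 / 2 := by norm_num
    rw [h4] at h2
    linarith

theorem mean_ind {i : ℕ} (hi : i < 2) :
    Tendsto (fun M : ℕ => (1 / (M : ℂ)) * ∑ m ∈ Finset.range M, ind i m) atTop (𝓝 (1 / 2)) := by
  rw [tendsto_iff_norm_sub_tendsto_zero]
  have h1 : Tendsto (fun N : ℕ => (2 : ℝ) / (N : ℝ)) atTop (𝓝 0) := tendsto_const_div_atTop_nhds_zero_nat 2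
  refine squeeze_zero' (Eventually.of_forall fun _ => norm_nonneg _) ?_ h1
  filter_upwards [eventually_gt_atTop 0] with N hN
  have hN' : (0 : ℝ) < N := by exact_mod_cast hN
  have hNc : (N : ℂ) ≠ 0 := by exact_mod_cast hN.ne'
  have e1 : (1 / (N : ℂ)) * ∑ m ∈ Finset.range N, ind i m - 1 / 2 =
      (1 / (N : ℂ)) * (∑ m ∈ Finset.range N, ind i m - (N : ℂ) / 2) := by
    field_simp
  rw [e1, norm_mul, norm_div, norm_one, Complex.norm_natCast, one_div, inv_mul_eq_div]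
  gcongr
  exact sum_err hi N

/-- one phase -/
theorem one_seq {p : ℝ → ℝ} {d : ℕ} (hd0 : 0 < d) (hp : Pool.Agent.U587.PW.Dat p d) :
    ∃ D : Set ℝ, dimH D ≤ ENNReal.ofReal (1 - 1 / (2 ^ (4 * d + 6) * (d : ℝ))) ∧
      ∀ a : ℝ, 0 < a → a ∉ D → Balanced fun n => t ⌊a * p n⌋₊ := by
  obtain ⟨D0, hD0, h0⟩ := Pool.Agent.U587.PW.seq_rng hd0 hp (norm_ind 0) (mean_ind (i := 0) (by norm_num))
  obtain ⟨D1, hD1, h1⟩ := Pool.Agent.U587.PW.seq_rng hd0 hp (norm_ind 1) (mean_ind (i := 1) (by norm_num))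
  have hdk : Pool.Agent.U587.PT.dk (Pool.Agent.U587.PT.kD d) d =
      ENNReal.ofReal (1 - 1 / (2 ^ (4 * d + 6) * (d : ℝ))) := by
    unfold Pool.Agent.U587.PT.dk Pool.Agent.U587.PT.kD
    congr 2
    push_cast
    rfl
  refine ⟨D0 ∪ D1, ?_, fun a ha haD => ?_⟩
  · rw [dimH_union, ← hdk]
    exact max_le hD0 hD1
  · rw [Set.mem_union, not_or] at haD
    intro i hi
    have h2 : Tendsto (fun N : ℕ => (1 / (N : ℂ)) * ∑ n ∈ Finset.Icc 1 N, ind i ⌊a * p n⌋₊) atTop (𝓝 (1 / 2)) := by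
      interval_cases i
      · exact h0 a ha haD.1
      · exact h1 a ha haD.2
    have h3 := (Complex.continuous_re.tendsto (1 / 2)).comp h2
    have e1 : (1 / 2 : ℂ).re = 1 / 2 := by norm_num
    rw [e1] at h3
    refine h3.congr fun N => ?_
    have e2 : (1 / (N : ℂ)) * ∑ n ∈ Finset.Icc 1 N, ind i ⌊a * p n⌋₊ =
        (((((Finset.Icc 1 N).filter fun n : ℕ => t ⌊a * p n⌋₊ = i).card : ℝ) / (N : ℝ) : ℝ) : ℂ) := by
      unfold ind
      rw [Finset.sum_ite, Finset.sum_const_zero, add_zero, Finset.sum_const, nsmul_eq_mul, mul_one]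
      push_cast
      ring
    simp only [Function.comp_def]
    rw [e2, Complex.ofReal_re]

/-- **Frequencies of the symbols along `[a P(n)]` and `[a n^θ]`, all `a > 0` outside a set of dimension at most
`1 - 1 / (2^(4 d + 6) d)`** -/
theorem result (d : ℕ) (S : Set (Polynomial ℝ)) (hS : S.Countable)
    (hSd : ∀ P ∈ S, 0 < P.natDegree ∧ P.natDegree ≤ d ∧ 0 < P.leadingCoeff)
    (Θ : Set ℝ) (hΘ : Θ.Countable) (hΘd : ∀ θ ∈ Θ, 0 < θ ∧ θ ≤ d) :
    ∃ D : Set ℝ, dimH D ≤ ENNReal.ofReal (1 - 1 / (2 ^ (4 * d + 6) * (d : ℝ))) ∧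
      ∀ a : ℝ, 0 < a → a ∉ D →
        (∀ P ∈ S, Balanced fun n => t ⌊a * P.eval (n : ℝ)⌋₊) ∧ ∀ θ ∈ Θ, Balanced fun n => t ⌊a * (n : ℝ) ^ θ⌋₊ := by
  have hex1 : ∀ θ : Θ, ∃ D : Set ℝ, dimH D ≤ ENNReal.ofReal (1 - 1 / (2 ^ (4 * d + 6) * (d : ℝ))) ∧
      ∀ a : ℝ, 0 < a → a ∉ D → Balanced fun n => t ⌊a * (n : ℝ) ^ θ.1⌋₊ := by
    rintro ⟨θ, hθ⟩
    obtain ⟨hθ0, hθd⟩ := hΘd θ hθ
    have hd0 : 0 < d := by
      rcases Nat.eq_zero_or_pos d with h | h
      · rw [h, Nat.cast_zero] at hθd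
        linarith
      · exact h
    exact one_seq (p := fun x : ℝ => x ^ θ) hd0 (Pool.Agent.U587.PW.dat_pow hθ0 hθd)
  have hex2 : ∀ P : S, ∃ D : Set ℝ, dimH D ≤ ENNReal.ofReal (1 - 1 / (2 ^ (4 * d + 6) * (d : ℝ))) ∧
      ∀ a : ℝ, 0 < a → a ∉ D → Balanced fun n => t ⌊a * P.1.eval (n : ℝ)⌋₊ := by
    rintro ⟨P, hP⟩
    obtain ⟨h1, h2, h3⟩ := hSd P hP
    exact one_seq (p := fun x : ℝ => P.eval x) (lt_of_lt_of_le h1 h2) (Pool.Agent.U587.PW.dat_poly h1 h3 h2)
  choose D1 hD1 k1 using hex1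
  choose D2 hD2 k2 using hex2
  have := hΘ.to_subtype
  have := hS.to_subtype
  refine ⟨(⋃ θ, D1 θ) ∪ ⋃ P, D2 P, ?_, fun a ha haD => ?_⟩
  · rw [dimH_union, dimH_iUnion, dimH_iUnion]
    exact max_le (iSup_le fun θ => hD1 θ) (iSup_le fun P => hD2 P)
  · simp only [Set.mem_union, Set.mem_iUnion, not_or, not_exists] at haD
    exact ⟨fun P hP => k2 ⟨P, hP⟩ a ha (haD.2 _), fun θ hθ => k1 ⟨θ, hθ⟩ a ha (haD.1 _)⟩

end Pool.Agent.Results.MP_b6022c_nt.ExceptionalMultiples
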